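import Pool.Agent.H16.TK.Stmt2

/-! Transport by isomorphisms of whole structures. -/

set_option autoImplicit false

open Set

namespace Pool.Agent.TK

variable {C : Type} {c0 : C}

lemma IsoH.symm {h : Equiv.Perm ℕ} {M N : St C} (H : IsoH h M N) : IsoH h.symm N M := by
  refine ⟨?_, ?_⟩
  · intro u v
    rw [H.1 (h.symm u) (h.symm v)]
    simp
  · intro l
    rw [H.2 (l.map h.symm), List.map_map]
    have : (h : ℕ → ℕ) ∘ (h.symm : ℕ → ℕ) = id := by funext x; simp
    rw [this, List.map_id]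

lemma IsoH.conn {h : Equiv.Perm ℕ} {M N : St C} (H : IsoH h M N) {A : Set ℕ} {u v : ℕ}
    (hc : Conn M A u v) : Conn N (h '' A) (h u) (h v) := by
  obtain ⟨h1, h2⟩ := hc
  induction h2 with
  | refl => exact Conn.refl (by simpa using h1)
  | tail hb hs ih =>
    refine ih.step ?_ ?_
    · rw [← H.1]; exact hs.1
    · simpa using hs.2

lemma IsoH.conn_iff {h : Equiv.Perm ℕ} {M N : St C} (H : IsoH h M N) {A : Set ℕ} {u v : ℕ} :
    Conn N (h '' A) (h u) (h v) ↔ Conn M A u v := by
  refine ⟨fun hc => ?_, H.conn⟩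
  have h1 := H.symm.conn hc
  rw [Equiv.symm_image_image] at h1
  simpa using h1

lemma IsoH.image_cp {h : Equiv.Perm ℕ} {M N : St C} (H : IsoH h M N) (A : Set ℕ) (v : ℕ) :
    h '' cp M A v = cp N (h '' A) (h v) := by
  ext x
  constructor
  · rintro ⟨y, hy, rfl⟩
    exact H.conn hy
  · intro hx
    refine ⟨h.symm x, ?_, by simp⟩
    have h1 : Conn N (h '' A) (h v) (h (h.symm x)) := by
      rw [Equiv.apply_symm_apply]; exact hx
    exact H.conn_iff.1 h1

lemma IsoH.isCp {h : Equiv.Perm ℕ} {M N : St C} (H : IsoH h M N) {A D : Set ℕ}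
    (hD : IsCp M A D) : IsCp N (h '' A) (h '' D) := by
  obtain ⟨v, hv, rfl⟩ := hD
  exact ⟨h v, by simpa using hv, H.image_cp A v⟩

lemma ms_map (h : ℕ → ℕ) (a : List ℕ) : ms (a.map h) = h '' ms a := by
  ext x; simp [ms]

lemma IsoH.fi {h : Equiv.Perm ℕ} {M N : St C} (H : IsoH h M N) (a : List ℕ) (D : Set ℕ) :
    FI M a D N (a.map h) (h '' D) := by
  refine ⟨h, by simp, h.injective.injOn.bijOn_image, ?_⟩
  intro x hx
  have key : ∀ z ∈ a.zip (a.map h) ++ x.map (fun z => (z, h z)), z.2 = h z.1 := by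
    intro z hz
    rw [List.mem_append] at hz
    rcases hz with hz | hz
    · clear hx
      induction a with
      | nil => simp at hz
      | cons b a ih =>
        simp only [List.map_cons, List.zip_cons_cons, List.mem_cons] at hz
        rcases hz with rfl | hz
        · rfl
        · exact ih hz
    · simp only [List.mem_map] at hz
      obtain ⟨w, _, rfl⟩ := hz
      rfl
  refine ⟨?_, ?_, ?_⟩
  · intro z hz w hw
    rw [key z hz, key w hw]
    exact h.injective.eq_iff.symm
  · intro z hz w hw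
    rw [key z hz, key w hw]
    exact H.1 _ _
  · intro q hq
    rw [H.2, List.map_map]
    have e : q.map (h ∘ Prod.fst) = q.map Prod.snd := by
      apply List.map_congr_left
      intro z hz
      exact (key z (hq z hz)).symm
    rw [e]

theorem pf_ITR {C : Type} {c0 : C} : ITR C c0 := by
  intro h M N H
  refine ⟨fun A D hD => H.isCp hD, ?_, fun a D => H.fi a D, ?_⟩
  · intro D
    ext x
    constructor
    · rintro ⟨hx, s, ⟨t, ht, rfl⟩, hE⟩
      refine ⟨h.symm x, ⟨?_, t, ht, ?_⟩, by simp⟩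
      · intro hxD
        exact hx ⟨_, hxD, by simp⟩
      · rw [H.1]; simpa using hE
    · rintro ⟨y, ⟨hy, s, hs, hE⟩, rfl⟩
      refine ⟨by simpa using hy, h s, ⟨s, hs, rfl⟩, ?_⟩
      rw [← H.1]; exact hE
  · rintro r D ⟨a, ha, hs⟩
    refine ⟨a.map h, ?_, hs.fi (H.fi a D)⟩
    rw [ms_map]
    exact H.isCp ha

end Pool.Agent.TK
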