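import Pool.Agent.H16.TK.Stmt2

/-! A bijection of the components which preserves the types. -/

set_option autoImplicit false

open Set

namespace Pool.Agent.TK

/-- matching of countable coloured sets -/
lemma gla_match {α T : Type*} {S S' : Set α} (hS : S.Countable) (hS' : S'.Countable)
    (τ τ' : α → T)
    (h1 : ∀ (n : ℕ) (f : Fin n → α), Function.Injective f → (∀ i, f i ∈ S) →
      ∃ g : Fin n → α, Function.Injective g ∧ ∀ i, g i ∈ S' ∧ τ (f i) = τ' (g i))
    (h2 : ∀ (n : ℕ) (f : Fin n → α), Function.Injective f → (∀ i, f i ∈ S') →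
      ∃ g : Fin n → α, Function.Injective g ∧ ∀ i, g i ∈ S ∧ τ' (f i) = τ (g i)) :
    ∃ F : α → α, BijOn F S S' ∧ ∀ x ∈ S, τ x = τ' (F x) := by
  classical
  have le_of : ∀ (P Q : Set α), (∀ (n : ℕ) (f : Fin n → α), Function.Injective f →
      (∀ i, f i ∈ P) → ∃ g : Fin n → α, Function.Injective g ∧ ∀ i, g i ∈ Q) →
      P.encard ≤ Q.encard := by
    intro P Q h
    rw [← ENat.forall_natCast_le_iff_le]
    intro n hn
    obtain ⟨t, htP, ht⟩ := Set.exists_subset_encard_eq hn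
    have htf : t.Finite := Set.finite_of_encard_eq_coe ht
    haveI := htf.fintype
    have hc : Fintype.card t = n := by
      have := Set.encard_eq_coe_toFinset_card t
      rw [ht, Set.toFinset_card] at this
      exact_mod_cast this.symm
    let e := (Fintype.equivFinOfCardEq hc).symm
    obtain ⟨g, hg, hgQ⟩ := h n (fun i => (e i : α))
      (fun i j hij => e.injective (Subtype.ext hij)) (fun i => htP (e i).2)
    have h3 : (Set.range g).encard = n := by
      rw [← Set.image_univ, hg.encard_image, Set.encard_univ]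
      simp
    rw [← h3]
    exact Set.encard_le_encard (by rintro x ⟨i, rfl⟩; exact hgQ i)
  have key : ∀ t : T, Nonempty (({x | x ∈ S ∧ τ x = t} : Set α) ≃
      ({x | x ∈ S' ∧ τ' x = t} : Set α)) := by
    intro t
    have e1 : {x | x ∈ S ∧ τ x = t}.encard = {x | x ∈ S' ∧ τ' x = t}.encard := by
      apply le_antisymm
      · apply le_of
        intro n f hf hfP
        obtain ⟨g, hg, hg'⟩ := h1 n f hf (fun i => (hfP i).1)
        exact ⟨g, hg, fun i => ⟨(hg' i).1, (hg' i).2.symm.trans (hfP i).2⟩⟩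
      · apply le_of
        intro n f hf hfP
        obtain ⟨g, hg, hg'⟩ := h2 n f hf (fun i => (hfP i).1)
        exact ⟨g, hg, fun i => ⟨(hg' i).1, (hg' i).2.symm.trans (hfP i).2⟩⟩
    have c1 : {x | x ∈ S ∧ τ x = t}.Countable := hS.mono (fun x hx => hx.1)
    have c2 : {x | x ∈ S' ∧ τ' x = t}.Countable := hS'.mono (fun x hx => hx.1)
    by_cases hf : {x | x ∈ S ∧ τ x = t}.Finite
    · have hf' : {x | x ∈ S' ∧ τ' x = t}.Finite := by
        rw [← Set.encard_lt_top_iff, ← e1, Set.encard_lt_top_iff]; exact hf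
      haveI := hf.fintype
      haveI := hf'.fintype
      have hc : Fintype.card {x | x ∈ S ∧ τ x = t} = Fintype.card {x | x ∈ S' ∧ τ' x = t} := by
        rw [Set.encard_eq_coe_toFinset_card, Set.encard_eq_coe_toFinset_card,
          Set.toFinset_card, Set.toFinset_card] at e1
        exact_mod_cast e1
      exact ⟨Fintype.equivOfCardEq hc⟩
    · have hf' : ¬ {x | x ∈ S' ∧ τ' x = t}.Finite := by
        rw [← Set.encard_lt_top_iff, ← e1, Set.encard_lt_top_iff]; exact hf
      haveI : Infinite {x | x ∈ S ∧ τ x = t} := Set.infinite_coe_iff.2 hf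
      haveI : Infinite {x | x ∈ S' ∧ τ' x = t} := Set.infinite_coe_iff.2 hf'
      haveI : Countable {x | x ∈ S ∧ τ x = t} := c1.to_subtype
      haveI : Countable {x | x ∈ S' ∧ τ' x = t} := c2.to_subtype
      exact nonempty_equiv_of_countable
  let e := fun t => (key t).some
  let F : α → α := fun x => if h : x ∈ S then (e (τ x) ⟨x, h, rfl⟩).1 else x
  have hF : ∀ (t : T) (x : α) (hx : x ∈ S) (ht : τ x = t), F x = (e t ⟨x, hx, ht⟩).1 := by
    intro t x hx ht
    subst ht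
    simp only [F, dif_pos hx]
  have hFτ : ∀ x ∈ S, τ' (F x) = τ x := by
    intro x hx
    rw [hF (τ x) x hx rfl]
    exact (e (τ x) ⟨x, hx, rfl⟩).2.2
  refine ⟨F, ⟨?_, ?_, ?_⟩, fun x hx => (hFτ x hx).symm⟩
  · intro x hx
    rw [hF (τ x) x hx rfl]
    exact (e (τ x) ⟨x, hx, rfl⟩).2.1
  · intro x hx y hy hxy
    have ht : τ x = τ y := by rw [← hFτ x hx, ← hFτ y hy, hxy]
    rw [hF (τ y) x hx ht, hF (τ y) y hy rfl] at hxy
    have := (e (τ y)).injective (Subtype.ext hxy)
    exact congrArg Subtype.val this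
  · intro y hy
    set x := (e (τ' y)).symm ⟨y, hy, rfl⟩ with hx
    refine ⟨x.1, x.2.1, ?_⟩
    rw [hF (τ' y) x.1 x.2.1 x.2.2]
    have : (⟨x.1, x.2.1, x.2.2⟩ : ({x | x ∈ S ∧ τ x = τ' y} : Set α)) = x := rfl
    rw [this, hx, Equiv.apply_symm_apply]

variable {C : Type} {c0 : C}

/-- finitely many components are matched -/
lemma gla_step (hREL : REL C) (hCTR : CTR C) {d : Rk} {M M' : St C} {a a' : List ℕ}
    {U U' : Set ℕ} (hM : Valid c0 M) (hM' : Valid c0 M') (hl : a.length = a'.length)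
    (hU : ∀ v ∈ U, v ∉ a ∧ cp M (ms a) v ⊆ U) (hU' : ∀ v ∈ U', v ∉ a' ∧ cp M' (ms a') v ⊆ U')
    (hbf : bf M M' U U' (Rk.lim (W d)) (a.zip a')) (n : ℕ) (f : Fin n → Set ℕ)
    (hf : Function.Injective f) (hfS : ∀ i, f i ∈ {D | ∃ v ∈ U, D = cp M (ms a) v}) :
    ∃ g : Fin n → Set ℕ, Function.Injective g ∧
      ∀ i, g i ∈ {D | ∃ v ∈ U', D = cp M' (ms a') v} ∧ FB d M a (f i) M' a' (g i) := by
  choose v hv hfv using hfS
  obtain ⟨y, hy, hyU, hb⟩ := lim_ext hbf (List.ofFn v) (by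
    intro z hz; rw [List.mem_ofFn] at hz; obtain ⟨i, rfl⟩ := hz; exact hv i)
  have hyl : y.length = n := by rw [hy, List.length_ofFn]
  set p := (List.ofFn v).zip y ++ a.zip a' with hp
  let v' : Fin n → ℕ := fun i => y.get (i.cast hyl.symm)
  have hv' : ∀ i, v' i ∈ U' := fun i => hyU _ (List.get_mem _ _)
  have hmem : ∀ i, (v i, v' i) ∈ p := by
    intro i
    rw [hp, List.mem_append]
    left
    rw [List.mem_iff_getElem]
    refine ⟨i, ?_, ?_⟩
    · rw [List.length_zip, List.length_ofFn, hyl]; simp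
    · simp [v']
  have hza : ∀ z ∈ a.zip a', z ∈ p := fun z hz => by
    rw [hp, List.mem_append]; exact Or.inr hz
  refine ⟨fun i => cp M' (ms a') (v' i), ?_, ?_⟩
  · intro i j hij
    by_contra hne
    apply hne
    apply hf
    rw [hfv i, hfv j]
    have hj : v' j ∈ cp M' (ms a') (v' i) := by
      have : cp M' (ms a') (v' i) = cp M' (ms a') (v' j) := hij
      rw [this]
      exact self_mem_cp (hU' _ (hv' j)).1
    have hcd := (isCp_cp (M := M') (A := ms a') (v := v' i) (hU' _ (hv' i)).1).cd hM'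
    have hc := hcd.2 (v' i) (self_mem_cp (hU' _ (hv' i)).1) (v' j) hj
    have hc' : Conn M' (U'ᶜ ∪ ms a') (v' i) (v' j) := by
      refine hc.mono ?_
      intro x hx hxD
      rcases hx with hx | hx
      · exact hx ((hU' _ (hv' i)).2 hxD)
      · exact (Conn.not_right (hxD : Conn M' (ms a') (v' i) x)) hx
    have hsw := bf_symm (RLe.om_W (C := C) d _ _ _ _ _ hb)
    have hza' : ∀ z ∈ a'.zip a, z ∈ p.map Prod.swap := by
      intro z hz
      rw [← swap_zip a a'] at hz
      rw [List.mem_map] at hz ⊢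
      obtain ⟨w, hw, rfl⟩ := hz
      exact ⟨w, hza w hw, rfl⟩
    have hcM := hCTR M' M U' U (p.map Prod.swap) a' a (v' i) (v i) (v' j) (v j) hsw hl.symm hza'
      (List.mem_map.2 ⟨_, hmem i, rfl⟩) (List.mem_map.2 ⟨_, hmem j, rfl⟩) (hv i) (hv j) hc'
    have hcM' : Conn M (ms a) (v i) (v j) := hcM.mono (fun x hx => Or.inr hx)
    exact (cp_eq hM (u := v j) (v := v i) hcM').symm
  · intro i
    refine ⟨⟨v' i, hv' i, rfl⟩, hl, ?_⟩
    rw [hfv i]
    refine bf_mono (hREL M M' U U' d p a a' (v i) (v' i) hb hl hza (hmem i) (hU _ (hv i)).1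
      (hU _ (hv i)).2 (hU' _ (hv' i)).2) hza

theorem pf_GLA {C : Type} {c0 : C} (hREL : REL C) (hCTR : CTR C) : GLA C c0 := by
  intro d M M' a a' U U' hM hM' hl hU hU' hbf
  have cS : ({D | ∃ v ∈ U, D = cp M (ms a) v} : Set (Set ℕ)).Countable := by
    refine ((Set.to_countable U).image (fun v => cp M (ms a) v)).mono ?_
    rintro D ⟨v, hv, rfl⟩
    exact ⟨v, hv, rfl⟩
  have cS' : ({D | ∃ v ∈ U', D = cp M' (ms a') v} : Set (Set ℕ)).Countable := by
    refine ((Set.to_countable U').image (fun v => cp M' (ms a') v)).mono ?_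
    rintro D ⟨v, hv, rfl⟩
    exact ⟨v, hv, rfl⟩
  let τ : Set ℕ → Set (Set ℕ) := fun D => {E | FB d M a D M' a' E}
  let τ' : Set ℕ → Set (Set ℕ) := fun D => {E | FB d M' a' D M' a' E}
  have hτ : ∀ D D', FB d M a D M' a' D' → τ D = τ' D' := by
    intro D D' h
    ext E
    exact ⟨fun hE => h.symm.trans hE, fun hE => h.trans hE⟩
  have hbf' : bf M' M U' U (Rk.lim (W d)) (a'.zip a) := by
    have := bf_symm hbf
    rwa [swap_zip] at this
  obtain ⟨F, hF, hFτ⟩ := gla_match cS cS' τ τ'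
    (by
      intro n f hf hfS
      obtain ⟨g, hg, hg'⟩ := gla_step hREL hCTR hM hM' hl hU hU' hbf n f hf hfS
      exact ⟨g, hg, fun i => ⟨(hg' i).1, hτ _ _ (hg' i).2⟩⟩)
    (by
      intro n f hf hfS
      obtain ⟨g, hg, hg'⟩ := gla_step hREL hCTR hM' hM hl.symm hU' hU hbf' n f hf hfS
      exact ⟨g, hg, fun i => ⟨(hg' i).1, (hτ _ _ (hg' i).2.symm).symm⟩⟩)
  refine ⟨F, hF, ?_⟩
  intro v hv
  have h1 := hFτ _ ⟨v, hv, rfl⟩
  have h2 : F (cp M (ms a) v) ∈ τ' (F (cp M (ms a) v)) := FB.refl d M' a' _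
  rw [← h1] at h2
  exact h2

end Pool.Agent.TK
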