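import Pool.Agent.H16.TK.Stmt2

/-! GLU from GLA and GLB. -/

set_option autoImplicit false

open Set

namespace Pool.Agent.TK

theorem pf_GLU {C : Type} {c0 : C} (hGLA : GLA C c0) (hGLB : GLB C c0) : GLU C c0 := by
  intro d M M' a a' U U' hM hM' hl hU hU' hbf hR
  obtain ⟨F, hF, hFB⟩ := hGLA d M M' a a' U U' hM hM' hl hU hU' hbf
  refine hGLB M M' a a' U U' hM hM' hl hU hU' (bf_PI hbf) F hF ?_
  intro v hv
  have h1 := hFB v hv
  obtain ⟨v', hv', e⟩ := hF.mapsTo ⟨v, hv, rfl⟩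
  rw [e] at h1 ⊢
  exact hR v hv M' a' v' hM' (hU' v' hv').1 h1

end Pool.Agent.TK
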